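import Pool.Agent.N483.KM.StmX

/-!
# Project KM (helper483), part VPB (helper27): bodies with parameters
-/

set_option autoImplicit false

namespace Pool.Agent.N27.KM

open MeasureTheory Set Filter Topology
open scoped ENNReal InnerProductSpace
open Pool.Agent.R754.KG (E un sl Rv)
open Pool.Agent.R755.KF (CB)
open Pool.Agent.Y506.PV (CcW ind LCn)
open Pool.Agent.N483.KM

theorem sum_nb {ι : Type} (s : Finset ι) (a : ι → EReal) (h : ∀ i, a i ≠ ⊥) :
    ∑ i ∈ s, a i ≠ ⊥ := by
  classical
  induction s using Finset.induction_on with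
  | empty => simp
  | insert i s hi ih =>
    rw [Finset.sum_insert hi]
    exact EReal.add_ne_bot_iff.2 ⟨h i, ih⟩

theorem lsc_comp {X Y : Type} [TopologicalSpace X] [TopologicalSpace Y] {f : Y → EReal}
    (hf : LowerSemicontinuous f) {g : X → Y} (hg : Continuous g) :
    LowerSemicontinuous fun x => f (g x) :=
  fun x y hy => (hg.tendsto x).eventually (hf (g x) y hy)

theorem lsc_sum {X ι : Type} [TopologicalSpace X] (s : Finset ι) (f : ι → X → EReal)
    (hb : ∀ i x, f i x ≠ ⊥) (hl : ∀ i, LowerSemicontinuous (f i)) :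
    LowerSemicontinuous fun x => ∑ i ∈ s, f i x := by
  classical
  induction s using Finset.induction_on with
  | empty => simpa using lowerSemicontinuous_const
  | insert i s hi ih =>
    simp only [Finset.sum_insert hi]
    refine (hl i).add' ih fun x => ?_
    exact EReal.continuousAt_add (Or.inr (sum_nb s _ fun j => hb j x)) (Or.inl (hb i x))

theorem mul_sum' {ι : Type} (c : ℝ) (hc : 0 ≤ c) (s : Finset ι) (a : ι → EReal) :
    (c : EReal) * ∑ i ∈ s, a i = ∑ i ∈ s, (c : EReal) * a i := by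
  classical
  induction s using Finset.induction_on with
  | empty => simp
  | insert i s hi ih =>
    rw [Finset.sum_insert hi, Finset.sum_insert hi,
      EReal.left_distrib_of_nonneg_of_ne_top (EReal.coe_nonneg.2 hc) (EReal.coe_ne_top c), ih]

section

variable {r n d : ℕ} {ι : Type} [Fintype ι] {k : ι → ℕ} (L : E n →ₗ[ℝ] (∀ i, E (k i)))
  (V : Fin r → ∀ i, E (k i) → E d → EReal) (e : Fin r → ℝ)

theorem bp_closed (hV : ∀ j i, XP (V j i)) : IsClosed (BP L V e) := by
  have h1 : BP L V e = ⋂ j, (fun z : E n × E d => ∑ i, V j i (L z.1 i) z.2) ⁻¹' Iic (e j : EReal) := by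
    ext z
    simp only [BP, mem_iInter, mem_preimage, mem_Iic]
    rfl
  rw [h1]
  refine isClosed_iInter fun j => ?_
  have hL : ∀ i, Continuous fun z : E n × E d => ((L z.1 i, z.2) : E (k i) × E d) := by
    intro i
    have : Continuous fun x : E n => L x i :=
      ((LinearMap.proj i : (∀ i, E (k i)) →ₗ[ℝ] E (k i)).comp L).continuous_of_finiteDimensional
    exact (this.comp continuous_fst).prodMk continuous_snd
  have h2 : LowerSemicontinuous fun z : E n × E d => ∑ i, V j i (L z.1 i) z.2 :=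
    lsc_sum _ _ (fun i z => (hV j i).nbot _ _) fun i => lsc_comp (hV j i).lsc (hL i)
  exact h2.isClosed_preimage _

theorem bp_convex (hV : ∀ j i, XP (V j i)) : Convex ℝ (BP L V e) := by
  rw [convex_iff_forall_pos]
  intro z hz w hw a b ha hb hab j
  have hb1 : b < 1 := by linarith
  have ha1 : a = 1 - b := by linarith
  have h1 : ∀ i, V j i (L (a • z + b • w).1 i) (a • z + b • w).2 ≤
      (a : EReal) * V j i (L z.1 i) z.2 + (b : EReal) * V j i (L w.1 i) w.2 := by
    intro i
    have := (hV j i).conv (L z.1 i) (L w.1 i) z.2 w.2 b hb hb1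
    rw [← ha1] at this
    have h3 : L (a • z + b • w).1 i = a • L z.1 i + b • L w.1 i := by
      rw [Prod.fst_add, Prod.smul_fst, Prod.smul_fst, map_add, map_smul, map_smul]
      rfl
    rw [h3]
    exact this
  have h2 : ∑ i, V j i (L (a • z + b • w).1 i) (a • z + b • w).2 ≤
      (a : EReal) * ∑ i, V j i (L z.1 i) z.2 + (b : EReal) * ∑ i, V j i (L w.1 i) w.2 := by
    rw [mul_sum' a ha.le, mul_sum' b hb.le, ← Finset.sum_add_distrib]
    exact Finset.sum_le_sum fun i _ => h1 i
  refine h2.trans ?_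
  have h4 : (a : EReal) * ∑ i, V j i (L z.1 i) z.2 ≤ (a : EReal) * (e j : EReal) :=
    mul_le_mul_of_nonneg_left (hz j) (EReal.coe_nonneg.2 ha.le)
  have h5 : (b : EReal) * ∑ i, V j i (L w.1 i) w.2 ≤ (b : EReal) * (e j : EReal) :=
    mul_le_mul_of_nonneg_left (hw j) (EReal.coe_nonneg.2 hb.le)
  refine (add_le_add h4 h5).trans (le_of_eq ?_)
  rw [← EReal.coe_mul, ← EReal.coe_mul, ← EReal.coe_add, ← add_mul, hab, one_mul]

end

theorem int_of_vol {N : ℕ} {C : Set (E N)} (hC : Convex ℝ C) (hv : volume C ≠ 0) :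
    (interior C).Nonempty := by
  by_contra h
  rw [Set.not_nonempty_iff_eq_empty] at h
  apply hv
  refine measure_mono_null ?_ (hC.addHaar_frontier volume)
  intro x hx
  rw [frontier, h, sdiff_empty]
  exact subset_closure hx

theorem t_VPB (h1 : S_VER) (h2 : S_VRX) (h3 : S_MXF) (h4 : Pool.Agent.N483.KM.S_ONE) : S_VPB := by
  intro r q d A δ hA hδ
  obtain ⟨δ', hδ', hO⟩ := h4 d 1 δ one_pos hδ
  obtain ⟨κ', hκ', hV⟩ := h2 r q A δ' hA hδ'
  obtain ⟨κ, hκ, hO'⟩ := hO κ' hκ'
  refine ⟨κ, hκ, ?_⟩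
  intro ι _ _ n m k G L V e ψ hk hG hXP hinv hran hbd hint
  have hcl : IsClosed (BP L V e) := bp_closed L V e hXP
  have hcv : Convex ℝ (BP L V e) := bp_convex L V e hXP
  have hcp : IsCompact (BP L V e) := Metric.isCompact_of_isClosed_isBounded hcl hbd
  have hCB : CB (BP L V e) := by
    refine ⟨hcv, hcp, ?_⟩
    exact (isOpen_interior.measure_pos volume hint).trans_le (measure_mono interior_subset)
  refine ⟨hcp, hcv, ?_⟩
  obtain ⟨t0, ht0, hmax⟩ := h3 n d (BP L V e) hCB
  refine hO' n m ψ (BP L V e) t0 hCB (fun t => by rw [one_mul]; exact hmax t) ?_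
  -- the fibre
  have hvol : volume (sl (BP L V e) t0) ≠ 0 := by
    intro h
    unfold Rv at ht0
    rw [h] at ht0
    simp at ht0
  obtain ⟨B, hB⟩ : ∃ B : ℕ, B = Fintype.card ι := ⟨_, rfl⟩
  let σ : Fin B ≃ ι := (Fin.castOrderIso hB).toEquiv.trans (Fintype.equivFin ι).symm
  let L' : E n →ₗ[ℝ] (∀ i : Fin B, E (k (σ i))) :=
    LinearMap.pi fun i => (LinearMap.proj (σ i) : (∀ i, E (k i)) →ₗ[ℝ] E (k (σ i))).comp L
  have hL' : ∀ x i, L' x i = L x (σ i) := fun _ _ => rfl
  have hsl : sl (BP L V e) t0 =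
      {x : E n | ∀ j, ∑ i, V j (σ i) (L' x i) t0 ≤ (e j : EReal)} := by
    ext x
    change (∀ j, ∑ i, V j i (L x i) t0 ≤ (e j : EReal)) ↔
      ∀ j, ∑ i, V j (σ i) (L x (σ i)) t0 ≤ (e j : EReal)
    refine forall_congr' fun j => ?_
    rw [Equiv.sum_comp σ fun i => V j i (L x i) t0]
  have hslb : Bornology.IsBounded (sl (BP L V e) t0) := by
    refine (hbd.image_fst).subset ?_
    intro x hx
    exact ⟨(x, t0), hx, rfl⟩
  have hslc : Convex ℝ (sl (BP L V e) t0) := by
    intro x hx y hy a b ha hb hab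
    have h5 := hcv hx hy ha hb hab
    have h6 : a • ((x, t0) : E n × E d) + b • ((y, t0) : E n × E d) = (a • x + b • y, t0) := by
      rw [Prod.smul_mk, Prod.smul_mk, Prod.mk_add_mk, ← add_smul, hab, one_smul]
    rw [h6] at h5
    exact h5
  have hsli : (interior (sl (BP L V e) t0)).Nonempty := int_of_vol hslc hvol
  have hsln : (sl (BP L V e) t0).Nonempty := hsli.mono interior_subset
  have hXF : ∀ (j : Fin r) (i : Fin B), XF (fun x : E (k (σ i)) => V j (σ i) x t0) := by
    intro j i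
    refine ⟨fun x => (hXP j (σ i)).nbot x t0, ?_, ?_⟩
    · exact lsc_comp (hXP j (σ i)).lsc (continuous_id.prodMk continuous_const)
    · intro x y t ht0 ht1
      have h5 := (hXP j (σ i)).conv x y t0 t0 t ht0 ht1
      have h6 : (1 - t) • t0 + t • t0 = t0 := by
        rw [← add_smul, sub_add_cancel, one_smul]
      rw [h6] at h5
      exact h5
  obtain ⟨W, f, hW1, hW2, hW3, hW4⟩ := h1 r B n (fun i => k (σ i)) L'
    (fun j i x => V j (σ i) x t0) e hXF (by rw [← hsl]; exact hslb) (by rw [← hsl]; exact hsln)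
  rw [← hsl] at hW4
  have h5 := hV B n (fun i => k (σ i)) (fun i => G (σ i)) L' W f
    (by rw [Equiv.sum_comp σ fun i => k i]; exact hk) (fun i => hG (σ i)) hW1 hW2
    (fun i g hg => hW3 i g fun j x => hinv (σ i) g hg j x t0)
    (fun i g hg y => by
      obtain ⟨x, hx⟩ := hran (σ i) g hg y
      refine ⟨x, ?_⟩
      funext i'
      rw [hL', hx]
      by_cases hi : i' = i
      · subst hi
        rw [Pi.single_eq_same, Pi.single_eq_same]
      · rw [Pi.single_eq_of_ne hi, Pi.single_eq_of_ne fun h => hi (σ.injective h)])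
    (by rw [← hW4]; exact hslb) (by rw [← hW4]; exact hsli)
  rw [← hW4] at h5
  exact h5.2.2

end Pool.Agent.N27.KM
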